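import Mathlib
import Pool.Agent.R701.IntVal
import Pool.Agent.R676.PrufF

/-!
# `Int_K(A)` integrally closed implies `Int_K(A)` Prüfer, over every ADDB-domain

`D` is an ADDB-domain with fraction field `K`, `B` is a `K`-algebra (associative, with `1`, not
necessarily commutative) and `A` is a `D`-subalgebra of `B` which is finitely generated as a
`D`-module and spans `B` over `K`. These are exactly the pairs `A ⊆ B = A ⊗_D K` with `A` a
torsion-free `D`-algebra that is finitely generated as a `D`-module. (The hypothesis `A ∩ K = D` of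
the problem is not needed.) `IntK D K A` (defined in `Pool.Agent.R701.IntVal`, the library of the
hand-in for `MP_457b0e_al`) is `Int_K(A) = {f ∈ K[X] : f(a) ∈ A for all a ∈ A}`.

Proof. By the theorem of `Pool.Agent.R701.IntVal` the integral closure of `Int_K(A)` is
`Int_K(A, A') = {f : f(a) integral over D for all a ∈ A}`, for every integrally closed `D`. This ring
contains the ring `I_n` of the polynomials which take integral values at all integral elements of
degree at most `n = dim B` over `K`. We show that every ring between `I_n` and `K[X]` is Prüfer. For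
coprime `f, g ∈ D[X]`, with `α f + β g = c ∈ D`, the valuations of `c` and the residue fields at the
primes containing `c` are bounded (`D` is ADDB), so that there are a form
`G = f^(N+1) - f g^N + g^(N+1)` whose value at every integral element of degree `≤ n` is
`max(|f|, |g|)^(N+1)` and a polynomial `F` with `F(0) = 1` whose value is divisible by `c` at every
integral element of degree `≤ n` which is not too small. This gives `r, s ∈ K[X]` with
`r f + s g = 1` and `r f, r g, s f, s g ∈ I_n`.
-/

set_option autoImplicit false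

open Polynomial Pool.Agent.R701.IntVal

namespace Pool.Agent.Results.MP_6e749b_al.IntegrallyClosedIsPruefer

universe u v w

/-- `D` is an ADDB-domain: `D_P` is a discrete valuation ring and `D/P` is finite for every maximal
ideal `P`, and there is a subring `D₀` isomorphic to `ℤ` or to `𝔽_p[t]` such that for every prime
element `t` of `D₀` the normalized valuations `e = v_P(t)` and the residue degrees
`f = [D/P : D₀/(t)]` (that is, `|D/P| = |D₀/(t)| ^ f`) are bounded, where `P` runs through the maximal
ideals containing `t`. -/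
def IsADDB (D : Type u) [CommRing D] [IsDomain D] : Prop :=
  ∃ hdvr : ∀ (P : Ideal D) [P.IsMaximal], IsDiscreteValuationRing (Localization.AtPrime P),
    (∀ P : Ideal D, P.IsMaximal → Finite (D ⧸ P)) ∧
    ∃ D₀ : Subring D, (Nonempty (D₀ ≃+* ℤ) ∨
        ∃ p : ℕ, p.Prime ∧ Nonempty (D₀ ≃+* Polynomial (ZMod p))) ∧
      ∀ t : D₀, Prime t → ∃ m : ℕ, ∀ (P : Ideal D) [P.IsMaximal], (t : D) ∈ P →
        (haveI := hdvr P; IsDiscreteValuationRing.addVal (Localization.AtPrime P)
          (algebraMap D (Localization.AtPrime P) (t : D)) ≤ m) ∧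
        ∃ f : ℕ, f ≤ m ∧ Nat.card (D ⧸ P) = Nat.card (D₀ ⧸ Ideal.span {t}) ^ f

/-- `R` is a Prüfer domain: every nonzero finitely generated ideal is invertible. -/
def IsPruefer (R : Type v) [CommRing R] [IsDomain R] : Prop :=
  ∀ I : Ideal R, I.FG → I ≠ ⊥ →
    IsUnit (I : FractionalIdeal (nonZeroDivisors R) (FractionRing R))

/-- Let `D` be an ADDB-domain with fraction field `K`, `A` a torsion-free `D`-algebra which is finitely
generated as a `D`-module, and `B = A ⊗_D K`. If `Int_K(A)` is integrally closed then it is a Prüfer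
domain. -/
theorem result (D : Type u) [CommRing D] [IsDomain D] (hD : IsADDB D)
    (K : Type v) [Field K] [Algebra D K] [IsFractionRing D K]
    (B : Type w) [Ring B] [Nontrivial B] [Algebra K B] [Algebra D B] [IsScalarTower D K B]
    (A : Subalgebra D B) (hfg : (Subalgebra.toSubmodule A).FG)
    (hspan : Submodule.span K (A : Set B) = ⊤) (hic : IsIntegrallyClosed (IntK D K A)) :
    IsPruefer (IntK D K A) := by
  classical
  obtain ⟨hdvr, hfin, D₀, hD₀, hb⟩ := hD
  -- `D₀` is an infinite factorial domain
  have hufd : UniqueFactorizationMonoid D₀ := by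
    rcases hD₀ with ⟨⟨e⟩⟩ | ⟨p, hp, ⟨e⟩⟩
    · exact e.symm.toMulEquiv.uniqueFactorizationMonoid inferInstance
    · have := Fact.mk hp
      exact e.symm.toMulEquiv.uniqueFactorizationMonoid inferInstance
  have hinf : Infinite D₀ := by
    rcases hD₀ with ⟨⟨e⟩⟩ | ⟨p, hp, ⟨e⟩⟩
    · exact Infinite.of_injective e.symm e.symm.injective
    · have := Fact.mk hp
      exact Infinite.of_injective e.symm e.symm.injective
  have hall : ∀ c : D, c ≠ 0 → ∃ E Q, Pool.Agent.R676.Pruf.Bdd c E Q := by
    refine Pool.Agent.R676.Pruf.exists_bdd hdvr hfin D₀ ?_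
    intro t ht
    obtain ⟨m, hm⟩ := hb t ht
    refine ⟨m + (Nat.card (D₀ ⧸ Ideal.span {t}) + 1) ^ m, ?_⟩
    intro P hP htP
    obtain ⟨h1, f, hf, hcard⟩ := hm P htP
    refine ⟨h1.trans (by exact_mod_cast Nat.le_add_right _ _), ?_⟩
    rw [hcard]
    calc Nat.card (D₀ ⧸ Ideal.span {t}) ^ f ≤ (Nat.card (D₀ ⧸ Ideal.span {t}) + 1) ^ f :=
          Nat.pow_le_pow_left (Nat.le_succ _) _
      _ ≤ (Nat.card (D₀ ⧸ Ideal.span {t}) + 1) ^ m := Nat.pow_le_pow_right (Nat.succ_pos _) hf
      _ ≤ _ := Nat.le_add_left _ _
  -- `D` is integrally closed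
  have hDic : IsIntegrallyClosed D := by
    apply IsIntegrallyClosed.of_localization_maximal
    intro p hp0 hpm
    have := hdvr p
    infer_instance
  -- `B` is finite-dimensional
  have hfinB : FiniteDimensional K B := by
    obtain ⟨S, hS⟩ := hfg
    refine ⟨⟨S, ?_⟩⟩
    rw [eq_top_iff, ← hspan]
    apply Submodule.span_le.mpr
    intro a ha
    have h1 : a ∈ Submodule.span D (S : Set B) := by rw [hS]; exact ha
    exact Submodule.span_subset_span D K (S : Set B) h1
  have hA : ∀ a ∈ A, IsIntegral D a := by
    intro a ha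
    have : Module.Finite D A := Module.Finite.iff_fg.mpr hfg
    have h1 : IsIntegral D (⟨a, ha⟩ : A) := Algebra.IsIntegral.isIntegral _
    exact (isIntegral_algHom_iff A.val Subtype.val_injective).mpr h1
  -- `K(X)` is the fraction field of `Int_K(A)`
  have hmem : ∀ F : D[X], F.map (algebraMap D K) ∈ IntK D K A := by
    intro F a ha
    rw [aeval_map_algebraMap]
    have h3 := aeval_algHom_apply A.val (⟨a, ha⟩ : A) F
    have h2 : aeval a F = ((aeval (⟨a, ha⟩ : A) F : A) : B) := h3
    rw [h2]
    exact Subtype.mem _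
  have hinjR : Function.Injective (algebraMap (IntK D K A) (RatFunc K)) := by
    have : algebraMap (IntK D K A) (RatFunc K) =
        (algebraMap K[X] (RatFunc K)).comp (IntK D K A).val.toRingHom := rfl
    rw [this]
    exact (IsFractionRing.injective K[X] (RatFunc K)).comp Subtype.val_injective
  have hclear : ∀ q : K[X], ∃ (δ : D) (H : D[X]), δ ≠ 0 ∧
      H.map (algebraMap D K) = C (algebraMap D K δ) * q := by
    intro q
    obtain ⟨b, hb, hb'⟩ := IsLocalization.integerNormalization_spec (nonZeroDivisors D) q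
    refine ⟨b, IsLocalization.integerNormalization (nonZeroDivisors D) q,
      nonZeroDivisors.ne_zero hb, ?_⟩
    rw [hb', algebra_compatible_smul K b q, smul_eq_C_mul]
  have hfrac : IsFractionRing (IntK D K A) (RatFunc K) := by
    have : FaithfulSMul (IntK D K A) (RatFunc K) :=
      (faithfulSMul_iff_algebraMap_injective _ _).mpr hinjR
    apply IsFractionRing.of_field
    intro z
    obtain ⟨p, q, hq, rfl⟩ := IsFractionRing.div_surjective (A := K[X]) z
    obtain ⟨δ, P, hδ, hP⟩ := hclear p
    obtain ⟨ε, Q, hε, hQ⟩ := hclear q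
    refine ⟨⟨_, hmem (C ε * P)⟩, ⟨_, hmem (C δ * Q)⟩, ?_⟩
    change _ = algebraMap K[X] (RatFunc K) ((C ε * P).map (algebraMap D K)) /
      algebraMap K[X] (RatFunc K) ((C δ * Q).map (algebraMap D K))
    have h1 : (C ε * P).map (algebraMap D K) =
        C (algebraMap D K ε) * C (algebraMap D K δ) * p := by
      rw [Polynomial.map_mul, hP, Polynomial.map_C]; ring
    have h2 : (C δ * Q).map (algebraMap D K) =
        C (algebraMap D K ε) * C (algebraMap D K δ) * q := by
      rw [Polynomial.map_mul, hQ, Polynomial.map_C]; ring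
    rw [h1, h2, map_mul (algebraMap K[X] (RatFunc K)) _ p, map_mul (algebraMap K[X] (RatFunc K)) _ q,
      mul_div_mul_left]
    rw [Ne, map_eq_zero_iff _ (IsFractionRing.injective K[X] (RatFunc K)), ← C_mul,
      C_eq_zero, ← map_mul, map_eq_zero_iff _ (IsFractionRing.injective D K)]
    exact mul_ne_zero hε hδ
  -- `Int_K(A)` contains `I_n`
  have hsub : Pool.Agent.R676.Pruf.IntDeg D K (Module.finrank K B) ⊆ (IntK D K A : Set K[X]) := by
    intro f hf
    have h1 : f ∈ IntKPrime D K A := fun a ha =>
      Pool.Agent.R676.Pruf.isIntegral_aeval (hA a ha) hf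
    have h2 : IsIntegral (IntK D K A) (algebraMap K[X] (RatFunc K) f) :=
      (integral_closure A hA _).mpr ⟨f, h1, rfl⟩
    obtain ⟨r, hr⟩ := (IsIntegrallyClosed.isIntegral_iff (R := IntK D K A) (K := RatFunc K)).mp h2
    have h3 : (r : K[X]) = f := IsFractionRing.injective K[X] (RatFunc K) hr
    rw [← h3]; exact r.2
  -- pairs
  have hpair : ∀ x y : IntK D K A, ∃ t a b : IntK D K A, t * x = a * y ∧ (1 - t) * y = b * x := by
    intro x y
    obtain ⟨t, ht, a, ha, b, hb, h1, h2⟩ := Pool.Agent.R676.Pruf.pair_prop hall (Module.finrank K B)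
      (IntK D K A : Set K[X]) (zero_mem _) hsub (x : K[X]) (y : K[X])
    exact ⟨⟨t, ht⟩, ⟨a, ha⟩, ⟨b, hb⟩, Subtype.ext h1, Subtype.ext h2⟩
  -- conclusion
  intro I hI hI0
  obtain ⟨J, d, hd, hIJ⟩ := Pool.Agent.R676.Pruf.inv_of_fg hpair I hI hI0
  have hd' : algebraMap (IntK D K A) (FractionRing (IntK D K A)) d ≠ 0 := by
    rw [Ne, map_eq_zero_iff _ (IsFractionRing.injective _ _)]; exact hd
  refine IsUnit.of_mul_eq_one ((J : FractionalIdeal (nonZeroDivisors (IntK D K A))
    (FractionRing (IntK D K A))) * FractionalIdeal.spanSingleton _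
      (algebraMap (IntK D K A) (FractionRing (IntK D K A)) d)⁻¹) ?_
  rw [← mul_assoc, ← FractionalIdeal.coeIdeal_mul, hIJ, FractionalIdeal.coeIdeal_span_singleton,
    FractionalIdeal.spanSingleton_mul_spanSingleton, mul_inv_cancel₀ hd',
    FractionalIdeal.spanSingleton_one]

end Pool.Agent.Results.MP_6e749b_al.IntegrallyClosedIsPruefer
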